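import Mathlib
import Pool.Agent.H.MP_aab88c_gt.Main
set_option autoImplicit false
namespace Pool.Agent.Results.MP_aab88c_gt.Main
open Set Topology Pool.Agent.H.MP_aab88c_gt Finsupp
universe u

def IsFreeTVS {X V : Type u} [TopologicalSpace X] [AddCommGroup V] [Module ℝ V]
    [TopologicalSpace V] (i : X → V) : Prop :=
  IsTopologicalAddGroup V ∧ ContinuousSMul ℝ V ∧ Continuous i ∧
    ∀ (E : Type u) [AddCommGroup E] [Module ℝ E] [TopologicalSpace E] [IsTopologicalAddGroup E]
      [ContinuousSMul ℝ E] (f : X → E), Continuous f → ∃! g : V →L[ℝ] E, ∀ x, g (i x) = f x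

theorem result {X V W : Type u} [TopologicalSpace X] [TopologicalSpace.MetrizableSpace X]
    (Y : Set X) (hY : IsClosed Y) [AddCommGroup V] [Module ℝ V] [TopologicalSpace V]
    [AddCommGroup W] [Module ℝ W] [TopologicalSpace W] (i : X → V) (j : Y → W)
    (hi : IsFreeTVS i) (hj : IsFreeTVS j) :
    ∃ T : W →ₗ[ℝ] V, (∀ y : Y, T (j y) = i y) ∧ IsEmbedding T := by
  classical
  obtain ⟨_, _, h1, h2⟩ := hi
  obtain ⟨_, _, h3, h4⟩ := hj
  letI := TopologicalSpace.metrizableSpaceMetric X
  obtain ⟨T, hT, -⟩ := h4 V _ (h1.comp continuous_subtype_val)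
  have h5 : Function.Surjective (linearCombination ℝ j) := by
    rw [← LinearMap.range_eq_top, ← Submodule.ker_mkQ (LinearMap.range _), LinearMap.ker_eq_top]
    have := (h4 (W ⧸ (linearCombination ℝ j).range) 0 continuous_zero).unique
      (y₁ := Submodule.mkQL _) (y₂ := 0) (fun y => (Submodule.Quotient.mk_eq_zero _).2
        (LinearMap.mem_range.2 ⟨single y 1, by simp⟩)) fun _ => rfl
    exact congrArg ContinuousLinearMap.toLinearMap this
  refine ⟨T, hT, ?_⟩
  rcases isEmpty_or_nonempty X with _ | _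
  · have := h5.subsingleton
    exact .of_subsingleton _
  letI := (FB X).topology
  haveI : IsTopologicalAddGroup (X →₀ ℝ) := (FB X).toAddGroupFilterBasis.isTopologicalAddGroup
  haveI : ContinuousSMul ℝ (X →₀ ℝ) := (FB X).continuousSMul
  obtain ⟨g, hg, -⟩ := h2 _ _ single_cont
  let J : X → W := fun x => if h : x ∈ Y then j ⟨x, h⟩ else 0
  have hJ (y : Y) : J y = j y := dif_pos y.2
  have h6 (v : Y →₀ ℝ) : g (T (linearCombination ℝ j v)) = mapDomain (↑) v := by
    induction v using Finsupp.induction_linear with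
    | zero => simp
    | add f g h1 h2 => simp [mapDomain_add, h1, h2]
    | single y c => simp [hT, hg]
  have h7 (w : W) : linearCombination ℝ J (g (T w)) = w := by
    obtain ⟨v, rfl⟩ := h5 w
    rw [h6, linearCombination_mapDomain]
    congr 2
    exact funext hJ
  refine ⟨IsTopologicalAddGroup.isInducing_iff_nhds_zero.2 (le_antisymm
    ((T.continuous.tendsto' 0 0 T.map_zero).le_comap) fun U hU => ?_),
    Function.LeftInverse.injective (g := linearCombination ℝ J ∘ g) h7⟩
  obtain ⟨t, ht, H⟩ := key hY (J := J) (continuousOn_iff_continuous_restrict.2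
    (h3.congr fun y => (hJ y).symm)) hU
  refine ⟨_, g.continuous.tendsto' 0 0 g.map_zero
    ((FB X).toAddGroupFilterBasis.mem_nhds_zero ⟨t, ht, rfl⟩), fun w hw => h7 w ▸ H _ hw ?_⟩
  obtain ⟨v, rfl⟩ := h5 w
  intro x hx
  rw [h6, mapDomain_notin_range _ _ (by simpa using hx)]

end Pool.Agent.Results.MP_aab88c_gt.Main
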